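import Pool.Agent.Lib.MP_1a91b9_ntN.R.Defs
import Pool.Agent.Lib.MP_1a91b9_ntS3.G.Grp9

/-!
# MP_1a91b9_nt (multicubic base fields, classes modulo powers of three): the statement of part D
-/

set_option autoImplicit false

namespace Pool.Agent.Lib.MP_1a91b9_ntN.H

open NumberField Finset Pool.Agent.Lib.MP_1a91b9_ntT Pool.Agent.Lib.MP_1a91b9_ntK
  Pool.Agent.Lib.MP_1a91b9_ntK2 Pool.Agent.Lib.MP_1a91b9_ntK2.D9
open Pool.Agent.Lib.MP_1a91b9_ntH (Sx)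
open Pool.Agent.Lib.MP_1a91b9_ntS3.G (G9 c9)

noncomputable section

open Classical in
/-- The joint density of the good sets of primes in the classes modulo `3 ^ (n + 2)` (part D). -/
def DSJG (n : ℕ) : Prop := ∀ N : ℕ, 0 < N → ∀ (k j : Fin N → Fin 3) (P T : Fin N → Finset P3)
  (B : Finset P3), (∀ i, P i ⊆ B) → (∀ i, T i ⊆ B) → (∀ i, Disjoint (P i) (T i)) →
  Function.Injective (fun i => (k i, j i, P i, T i)) → ∀ (g : G9 n) (κ₀ : ℝ),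
  κ₀ < Da.cinf3 ^ N → ∀ ε : ℝ, 0 < ε → ∃ X₀ : ℕ, ∀ X : ℕ, X₀ ≤ X →
    κ₀ * (((Sx P3 X).filter fun S => Disjoint S B ∧ ∑ q ∈ S, c9 n q = g).card : ℝ) - ε * X ≤
    (((Sx P3 X).filter fun S => Disjoint S B ∧ ∑ q ∈ S, c9 n q = g ∧
      ∀ i, Gd9 (k i) (j i) (S ∪ P i) (T i)).card : ℝ)

end

end Pool.Agent.Lib.MP_1a91b9_ntN.H
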