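import Pool.Agent.Lib.MP_1a91b9_ntN.H.DensJ
import Pool.Agent.Lib.MP_1a91b9_ntN.H.Defs
import Pool.Agent.Lib.MP_1a91b9_ntN.DJ.Gd
import Pool.Agent.Lib.MP_1a91b9_ntS3.G.LimG

/-!
# MP_1a91b9_nt (multicubic base fields, classes modulo powers of three), part D: the sets of primes
which are good for all the labels

`dsjG`: the label `i` has the classes `k i`, `j i` and the sets of primes `P i`, `T i ⊆ B` (the exponents
`1` and `2`); the labels are pairwise different modulo cubes. The sets `S` of primes outside `B` for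
which `Gd9 (k i) (j i) (S ∪ P i) (T i)` for all `i` have lower density at least `cinf3 ^ N` in every
class modulo `3 ^ (n + 2)`.
-/

set_option autoImplicit false
set_option linter.unusedSectionVars false

namespace Pool.Agent.Lib.MP_1a91b9_ntN.H

open NumberField Finset Pool.Agent.Lib.MP_1a91b9_ntT Pool.Agent.Lib.MP_1a91b9_ntK
  Pool.Agent.Lib.MP_1a91b9_ntK.Da Pool.Agent.Lib.MP_1a91b9_ntK2 Pool.Agent.Lib.MP_1a91b9_ntK2.D9
open Pool.Agent.Lib.MP_1a91b9_ntH (PS nm Sx mem_Sx)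
open Pool.Agent.Lib.MP_1a91b9_ntS3.G (G9 c9 dich3_9)

noncomputable section

/-- The sets with a property in a fine class and in the class `g`. -/
def sgG (n : ℕ) (g : G9 n) (B : Finset P3) (γ : Bool ⊕ B → ZMod 3) (Q : Finset P3 → Prop) (X : ℕ) :
    Finset (Finset P3) := by
  classical exact (Cl (c9 n) g (SG (dtB d3b B) (SxT B) γ X)).filter fun S => Q S

theorem mem_sgG {n : ℕ} {g : G9 n} {B : Finset P3} {γ : Bool ⊕ B → ZMod 3} {Q : Finset P3 → Prop}
    {X : ℕ} {S : Finset P3} :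
    S ∈ sgG n g B γ Q X ↔ S ∈ Cl (c9 n) g (SG (dtB d3b B) (SxT B) γ X) ∧ Q S := by
  classical
  rw [sgG, mem_filter]

/-- The sets with a property in the class `g`. -/
def clG (n : ℕ) (g : G9 n) (B : Finset P3) (Q : Finset P3 → Prop) (X : ℕ) :
    Finset (Finset P3) := by
  classical exact (SxT B X).filter fun S => ∑ q ∈ S, c9 n q = g ∧ Q S

theorem mem_clG {n : ℕ} {g : G9 n} {B : Finset P3} {Q : Finset P3 → Prop} {X : ℕ}
    {S : Finset P3} : S ∈ clG n g B Q X ↔ S ∈ SxT B X ∧ ∑ q ∈ S, c9 n q = g ∧ Q S := by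
  classical
  rw [clG, mem_filter]

variable {A : Type} [Fintype A] [DecidableEq A]

/-- **The sets of primes which are good for all the labels, in a fine class.** -/
theorem gd_fineG (n : ℕ) [Nonempty A] (k j : A → Fin 3) (P T : A → Finset P3) {B : Finset P3}
    (hP : ∀ a, P a ⊆ B) (hT : ∀ a, T a ⊆ B) (hPT : ∀ a, Disjoint (P a) (T a))
    (hinj : Function.Injective fun a => (k a, j a, P a, T a)) (γ : Bool ⊕ B → ZMod 3) (g : G9 n)
    {κ₀ : ℝ} (hκ : κ₀ < cinf3 ^ Fintype.card A) (ε : ℝ) (hε : 0 < ε) :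
    ∃ X₀ : ℕ, ∀ X : ℕ, X₀ ≤ X →
      κ₀ * ((Cl (c9 n) g (SG (dtB d3b B) (SxT B) γ X)).card : ℝ) - ε * X ≤
        ((sgG n g B γ (fun S => ∀ a, Gd9 (k a) (j a) (S ∪ P a) (T a)) X).card : ℝ) := by
  classical
  let _ : Fintype (G9 n) := Fintype.ofFinite _
  -- the classes of the labels
  set αa : A → ZMod 3 := fun a => γ (Sum.inl false) + ∑ p ∈ P a ∪ T a, eT (T a) p * d3b.a p
    with hαa
  set βa : A → ZMod 3 := fun a => γ (Sum.inl true) + ∑ p ∈ P a ∪ T a, eT (T a) p * d3b.b p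
    with hβa
  set pr : A → Prop := fun a => j a = 1 ∨ (j a = 0 ∧ k a = 0 ∧ αa a = 0) with hpr
  set κa : A → ZMod 3 := fun a => if j a = 1 then (k a : ZMod 3) else βa a with hκa
  have hB : ∀ a, P a ∪ T a ⊆ B := fun a => union_subset (hP a) (hT a)
  obtain ⟨X₀, h0⟩ := dens_PG (A := A) (E := fun a => ↥(P a ∪ T a) ⊕ {_u : Unit // pr a})
    (eng_dtB d3b_OK card_P3 B) (mean_dtB d3b_OK B)
    (dichJ_dtB d3b_OK card_P3 B (dich3_9 n))
    (c := fun a => cJ (eT (T a)) (k a : ZMod 3) (j a : ZMod 3) B (P a ∪ T a))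
    (fun a b hab => by
      obtain ⟨h1, h2, h3, h4⟩ := cJ_inj (hP a) (hT a) (hP b) (hT b) (hPT a) (hPT b) hab
      exact hinj (by
        show (k a, j a, P a, T a) = (k b, j b, P b, T b)
        rw [show k a = k b from h1, show j a = j b from h2, h3, h4]))
    (P := fun a => PJ (eT (T a)) B (P a ∪ T a) {_u : Unit // pr a})
    (R := fun a => RJ d3b (eT (T a)) (k a : ZMod 3) (j a : ZMod 3) (κa a) B (P a ∪ T a)
      {_u : Unit // pr a} γ)
    (fun a => RJ_symm d3b_OK.ok.sym γ)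
    (fun a => PJ_inj (eT_mul _) (hB a) fun u u' => Subsingleton.elim _ _) γ g hκ ε hε
  refine ⟨X₀, fun X hX => (h0 X hX).trans ?_⟩
  rw [Nat.cast_le]
  refine card_le_card fun S hS => ?_
  rw [mem_filter] at hS
  rw [mem_sgG]
  obtain ⟨hS0, hS2, hS3⟩ := hS
  have hS1 := (mem_Cl.1 hS0).1
  refine ⟨hS0, fun a => ?_⟩
  obtain ⟨hS4, hS5⟩ := mem_SG.1 hS1
  have hSB : Disjoint S B := (mem_SxT.1 hS4).2
  have hSb : Disjoint S (P a ∪ T a) := disjoint_of_subset_right (hB a) hSB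
  have hST : Disjoint S (T a) := disjoint_of_subset_right (hT a) hSB
  have hd : Disjoint (S ∪ P a) (T a) := disjoint_union_left.2 ⟨hST, hPT a⟩
  have hU : S ∪ P a ∪ T a = S ∪ (P a ∪ T a) := union_assoc _ _ _
  have he1 : ∀ q ∈ S, eT (T a) q = 1 := fun q hq => if_neg (disjoint_left.1 hST hq)
  have hγ : ∀ p ∈ P a ∪ T a, xB B γ p = ∑ q ∈ S, d3b.s q p := by
    intro p hp
    rw [xB, dif_pos (hB a hp), ← hS5]
    rfl
  have hα : ∑ q ∈ S ∪ P a ∪ T a, eT (T a) q * d3b.a q = αa a := by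
    rw [hU, sum_union hSb, hαa]
    congr 1
    rw [← hS5]
    exact sum_congr rfl fun q hq => by
      rw [he1 q hq, one_mul]
      rfl
  have hβ : ∑ q ∈ S ∪ P a ∪ T a, eT (T a) q * d3b.b q = βa a := by
    rw [hU, sum_union hSb, hβa]
    congr 1
    rw [← hS5]
    exact sum_congr rfl fun q hq => by
      rw [he1 q hq, one_mul]
      rfl
  have hα' : cl3 (DD3 (S ∪ P a) * DD3 (T a) ^ 2) = αa a := by
    rw [← cls_a hd, ← hα]
    rfl
  have hβ' : cn3 (DD3 (S ∪ P a) * DD3 (T a) ^ 2) = βa a := by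
    rw [← cls_b hd, ← hβ]
    rfl
  have hne : (S ∪ P a ∪ T a).Nonempty := by
    rw [hU]
    exact (nonempty_iff_ne_empty.2 hS2).mono subset_union_left
  have hk := hS3 a
  rw [Gd9, hα', hβ']
  rcases fin3_cases (j a) with hj | hj | hj
  · by_cases hka : k a = 0
    · by_cases hα0 : αa a = 0
      · -- the hard class
        have hp : pr a := Or.inr ⟨hj, hka, hα0⟩
        let _ : Unique {_u : Unit // pr a} := ⟨⟨⟨(), hp⟩⟩, fun u => Subsingleton.elim _ _⟩
        have h1 : d3b.kB (eT (T a)) (k a : ZMod 3) (j a : ZMod 3) (κa a) (S ∪ (P a ∪ T a)) = 3 := by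
          rw [← kB_bordered d3b_OK.ok.sym (eT_mul _) he1 (hB a) hSb {_u : Unit // pr a} hγ]
          refine hk.trans ?_
          rw [tP, if_pos]
          simp only [hka, hj]
          exact triv_zero (hB a) fun _ => hα0
        have hκ' : κa a = βa a := by
          rw [hκa]
          exact if_neg (by rw [hj]; exact f3_01)
        refine Or.inr (Or.inl ⟨hj, hka, hα0, hne, ?_⟩)
        rw [hκ', hka, hj] at h1
        show d3b.kB (eT (T a)) 0 0 (βa a) (S ∪ P a ∪ T a) = 3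
        rw [hU]
        exact h1
      · -- the Laplacian
        have hp : ¬ pr a := by
          rintro (h | ⟨_, _, h⟩)
          · rw [hj] at h
            exact absurd h f3_01
          · exact hα0 h
        have hE : IsEmpty {_u : Unit // pr a} := ⟨fun u => hp u.2⟩
        have h1 : (d3b.tw (k a : ZMod 3) (j a : ZMod 3)).kc (eT (T a)) 1 (S ∪ (P a ∪ T a)) = 3 := by
          rw [← kB_unbordered (κ₀ := κa a) d3b_OK.ok.sym (eT_mul _) he1 (hB a) hSb
            {_u : Unit // pr a} hγ]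
          refine hk.trans ?_
          rw [tP, if_pos]
          simp only [hka, hj]
          exact triv_zero (hB a) fun u => (hE.false u).elim
        refine Or.inl ⟨hj, Or.inr ⟨hka, ?_, ?_⟩⟩
        · have h2 : ∑ q ∈ S ∪ P a ∪ T a, eT (T a) q * d3.a q = αa a := hα
          rw [h2]
          exact hα0
        · rw [hka, hj] at h1
          have h2 := d3_kc 0 (eT (T a)) (S ∪ (P a ∪ T a))
          rw [hU, ← h2]
          exact h1
    · -- `k ≠ 0`, `j = 0`
      have hp : ¬ pr a := by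
        rintro (h | ⟨_, h, _⟩)
        · rw [hj] at h
          exact absurd h f3_01
        · exact hka h
      have hE : IsEmpty {_u : Unit // pr a} := ⟨fun u => hp u.2⟩
      have h1 : (d3b.tw (k a : ZMod 3) (j a : ZMod 3)).kc (eT (T a)) 1 (S ∪ (P a ∪ T a)) = 1 := by
        rw [← kB_unbordered (κ₀ := κa a) d3b_OK.ok.sym (eT_mul _) he1 (hB a) hSb
          {_u : Unit // pr a} hγ]
        refine hk.trans ?_
        rw [tP, if_neg (not_triv_t hka hE _ γ)]
      refine Or.inl ⟨hj, Or.inl ⟨hka, ?_⟩⟩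
      rw [hj] at h1
      have h2 := det_of_ker _ h1
      have h3 := N_tw (k a : ZMod 3) (eT (T a)) (S ∪ (P a ∪ T a))
      rw [hU, ← h3]
      exact h2
  · -- `j = 1`
    have hp : pr a := Or.inl hj
    let _ : Unique {_u : Unit // pr a} := ⟨⟨⟨(), hp⟩⟩, fun u => Subsingleton.elim _ _⟩
    have h1 : d3b.kB (eT (T a)) (k a : ZMod 3) (j a : ZMod 3) (κa a) (S ∪ (P a ∪ T a)) = 1 := by
      rw [← kB_bordered d3b_OK.ok.sym (eT_mul _) he1 (hB a) hSb {_u : Unit // pr a} hγ]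
      refine hk.trans ?_
      rw [tP, if_neg (not_triv_s (by rw [hj]; exact z3_one) _ γ)]
    have hκ' : κa a = k a := by
      rw [hκa]
      exact if_pos hj
    refine Or.inr (Or.inr (Or.inl ⟨hj, ?_⟩))
    rw [hκ', hj] at h1
    have h2 := det_of_ker _ h1
    show (d3b.NB (eT (T a)) (k a : ZMod 3) 1 (k a : ZMod 3) (S ∪ P a ∪ T a)).det ≠ 0
    rw [hU]
    exact h2
  · -- `j = 2`
    have hp : ¬ pr a := by
      rintro (h | ⟨h, _, _⟩)
      · rw [hj] at h
        exact absurd h f3_21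
      · rw [hj] at h
        exact absurd h f3_20
    have hE : IsEmpty {_u : Unit // pr a} := ⟨fun u => hp u.2⟩
    have h1 : (d3b.tw (k a : ZMod 3) (j a : ZMod 3)).kc (eT (T a)) 1 (S ∪ (P a ∪ T a)) = 1 := by
      rw [← kB_unbordered (κ₀ := κa a) d3b_OK.ok.sym (eT_mul _) he1 (hB a) hSb
        {_u : Unit // pr a} hγ]
      refine hk.trans ?_
      rw [tP, if_neg (not_triv_s (by rw [hj]; exact z3_two) _ γ)]
    refine Or.inr (Or.inr (Or.inr ⟨hj, ?_⟩))
    rw [hj] at h1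
    have h2 := det_of_ker _ h1
    show ((d3b.tw (k a : ZMod 3) 2).N (eT (T a)) 1 (S ∪ P a ∪ T a)).det ≠ 0
    rw [hU]
    exact h2

/-! ### The sum over the fine classes -/

theorem card_fineG (n : ℕ) (g : G9 n) (B : Finset P3) (Q : Finset P3 → Prop) (X : ℕ) :
    (clG n g B Q X).card = ∑ γ : Bool ⊕ B → ZMod 3, (sgG n g B γ Q X).card := by
  rw [card_eq_sum_card_fiberwise (f := fun S => fun j : Bool ⊕ B => ∑ q ∈ S, (dtB d3b B).a q j)
    (t := univ) fun S _ => mem_coe.2 (mem_univ _)]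
  refine sum_congr rfl fun γ _ => ?_
  congr 1
  ext S
  rw [mem_filter, mem_clG, mem_sgG, mem_Cl, mem_SG]
  constructor
  · rintro ⟨⟨h1, h2, h3⟩, h4⟩
    exact ⟨⟨⟨h1, fun j => congrFun h4 j⟩, h2⟩, h3⟩
  · rintro ⟨⟨⟨h1, h2⟩, h3⟩, h4⟩
    exact ⟨⟨h1, h3, h4⟩, funext h2⟩

/-- **Part D, jointly, in the classes modulo a power of three.** -/
theorem dsjG (n : ℕ) : DSJG n := by
  classical
  intro N hN k j P T B hP hT hPT hinj g κ₀ hκ ε hε
  have : Nonempty (Fin N) := ⟨⟨0, hN⟩⟩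
  have hM : (0 : ℝ) < Fintype.card (Bool ⊕ B → ZMod 3) := by exact_mod_cast Fintype.card_pos
  choose X0 h0 using fun γ : Bool ⊕ B → ZMod 3 =>
    gd_fineG n k j P T hP hT hPT hinj γ g (by rw [Fintype.card_fin]; exact hκ)
      (ε / Fintype.card (Bool ⊕ B → ZMod 3)) (by positivity)
  refine ⟨∑ γ, X0 γ, fun X hX => ?_⟩
  have hXt : ∀ γ, X0 γ ≤ X := fun γ =>
    (single_le_sum (fun _ _ => Nat.zero_le _) (mem_univ γ)).trans hX
  have e1 : ((Sx P3 X).filter fun S => Disjoint S B ∧ ∑ q ∈ S, c9 n q = g) =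
      clG n g B (fun _ => True) X := by
    ext S
    rw [mem_filter, mem_clG, mem_SxT]
    tauto
  have e2 : ((Sx P3 X).filter fun S => Disjoint S B ∧ ∑ q ∈ S, c9 n q = g ∧
      ∀ i, Gd9 (k i) (j i) (S ∪ P i) (T i)) =
      clG n g B (fun S => ∀ i, Gd9 (k i) (j i) (S ∪ P i) (T i)) X := by
    ext S
    rw [mem_filter, mem_clG, mem_SxT]
    tauto
  have e3 : ((clG n g B (fun _ => True) X).card : ℝ) =
      ∑ γ : Bool ⊕ B → ZMod 3, ((Cl (c9 n) g (SG (dtB d3b B) (SxT B) γ X)).card : ℝ) := by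
    rw [card_fineG, Nat.cast_sum]
    refine sum_congr rfl fun γ _ => ?_
    congr 2
    ext S
    rw [mem_sgG]
    exact ⟨fun h => h.1, fun h => ⟨h, trivial⟩⟩
  rw [e1, e2, e3, card_fineG, Nat.cast_sum, mul_sum]
  have h1 : ∑ γ : Bool ⊕ B → ZMod 3, (κ₀ * ((Cl (c9 n) g (SG (dtB d3b B) (SxT B) γ X)).card : ℝ) -
      ε / Fintype.card (Bool ⊕ B → ZMod 3) * X) ≤
      ∑ γ : Bool ⊕ B → ZMod 3,
        ((sgG n g B γ (fun S => ∀ i, Gd9 (k i) (j i) (S ∪ P i) (T i)) X).card : ℝ) :=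
    sum_le_sum fun γ _ => h0 γ X (hXt γ)
  rw [sum_sub_distrib, sum_const, nsmul_eq_mul, card_univ] at h1
  have h2 : (Fintype.card (Bool ⊕ B → ZMod 3) : ℝ) *
      (ε / Fintype.card (Bool ⊕ B → ZMod 3) * X) = ε * X := by field_simp
  linarith

end

end Pool.Agent.Lib.MP_1a91b9_ntN.H
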