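import Pool.Agent.Lib.MP_1a91b9_ntN.H.EngJ

/-!
# MP_1a91b9_nt (multicubic base fields, classes modulo powers of three), part D: the density of the sets
of primes for which all the kernels are minimal, in the classes of a group
-/

set_option autoImplicit false
set_option linter.unusedSectionVars false

namespace Pool.Agent.Lib.MP_1a91b9_ntN.H

open Finset Pool.Agent.Lib.MP_1a91b9_ntH Pool.Agent.Lib.MP_1a91b9_ntK
  Pool.Agent.Lib.MP_1a91b9_ntK.Da
open Pool.Agent.Lib.MP_1a91b9_ntS3.DG (hS Mz3 Dich3 engine3b_w)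

noncomputable section

section Cls

variable {ι : Type} [DecidableEq ι] {G : Type} [AddCommGroup G]

theorem hS_ch (ψ : AddChar G ℂ) (cl : ι → G) (S : Finset ι) :
    hS (fun q => ψ (cl q)) S = ψ (∑ q ∈ S, cl q) := by
  unfold hS
  induction S using Finset.induction_on with
  | empty => rw [sum_empty, prod_empty, AddChar.map_zero_eq_one]
  | insert a s ha ih => rw [sum_insert ha, prod_insert ha, AddChar.map_add_eq_mul, ih]

/-- The sets of a family in the class `g`. -/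
def Cl (cl : ι → G) (g : G) (Y : Finset (Finset ι)) : Finset (Finset ι) := by
  classical exact Y.filter fun S => ∑ q ∈ S, cl q = g

theorem mem_Cl {cl : ι → G} {g : G} {Y : Finset (Finset ι)} {S : Finset ι} :
    S ∈ Cl cl g Y ↔ S ∈ Y ∧ ∑ q ∈ S, cl q = g := by
  classical
  rw [Cl, mem_filter]

theorem sum_Cl [Fintype G] (cl : ι → G) (Y : Finset (Finset ι)) (g : G) (F : Finset ι → ℂ) :
    ∑ S ∈ Cl cl g Y, F S = (∑ ψ : AddChar G ℂ, ψ (-g) *
      ∑ S ∈ Y, hS (fun q => ψ (cl q)) S * F S) / Fintype.card G := by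
  classical
  have hG : (Fintype.card G : ℂ) ≠ 0 := Nat.cast_ne_zero.2 Fintype.card_ne_zero
  have h1 : ∀ (ψ : AddChar G ℂ) (S : Finset ι), ψ (-g) * (hS (fun q => ψ (cl q)) S * F S) =
      ψ (∑ q ∈ S, cl q - g) * F S := by
    intro ψ S
    rw [sub_eq_add_neg, AddChar.map_add_eq_mul, hS_ch]
    ring
  have h2 : ∑ ψ : AddChar G ℂ, ψ (-g) * ∑ S ∈ Y, hS (fun q => ψ (cl q)) S * F S =
      ∑ S ∈ Y, if ∑ q ∈ S, cl q = g then (Fintype.card G : ℂ) * F S else 0 := by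
    simp only [mul_sum, h1]
    rw [sum_comm]
    refine sum_congr rfl fun S _ => ?_
    rw [← sum_mul, AddChar.sum_apply_eq_ite]
    by_cases h : ∑ q ∈ S, cl q = g
    · rw [if_pos (sub_eq_zero.2 h), if_pos h]
    · rw [if_neg fun h' => h (sub_eq_zero.1 h'), if_neg h, zero_mul]
  rw [h2, ← sum_filter, Cl, ← mul_sum, mul_div_cancel_left₀ _ hG]

/-- The mean values in the classes from the sums with the characters. -/
theorem MV_cl [Fintype G] {cl : ι → G} {B : ℕ → Finset (Finset ι)} {f : Finset ι → ℝ} {v : ℝ}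
    (h : ∀ (ψ : AddChar G ℂ) (ε : ℝ), 0 < ε → ∃ X₀ : ℕ, ∀ X : ℕ, X₀ ≤ X →
      ‖∑ S ∈ B X, hS (fun q => ψ (cl q)) S * ((f S : ℂ) - v)‖ ≤ ε * X) (g : G) :
    MV (fun X => Cl cl g (B X)) f v := by
  intro ε hε
  have hG : (0 : ℝ) < Fintype.card G := Nat.cast_pos.2 Fintype.card_pos
  choose X1 h1 using fun ψ : AddChar G ℂ => h ψ ε hε
  refine ⟨∑ ψ, X1 ψ, fun X hX => ?_⟩
  have hX1 : ∀ ψ, X1 ψ ≤ X := fun ψ =>
    (single_le_sum (fun _ _ => Nat.zero_le _) (mem_univ ψ)).trans hX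
  have h2 : ‖∑ S ∈ Cl cl g (B X), ((f S : ℂ) - v)‖ ≤ ε * X := by
    rw [sum_Cl, norm_div, Complex.norm_natCast, div_le_iff₀ hG]
    refine (norm_sum_le _ _).trans ?_
    have hcard : (Fintype.card (AddChar G ℂ) : ℝ) = Fintype.card G := by
      rw [AddChar.card_eq]
    calc _ ≤ ∑ _ψ : AddChar G ℂ, ε * X := by
          refine sum_le_sum fun ψ _ => ?_
          rw [norm_mul, AddChar.norm_apply, one_mul]
          exact h1 ψ X (hX1 ψ)
      _ = ε * X * Fintype.card G := by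
          rw [sum_const, card_univ, nsmul_eq_mul, hcard]
          ring
  have h3 : ∑ S ∈ Cl cl g (B X), ((f S : ℂ) - v) =
      ((∑ S ∈ Cl cl g (B X), f S - v * (Cl cl g (B X)).card : ℝ) : ℂ) := by
    rw [sum_sub_distrib, sum_const, nsmul_eq_mul]
    push_cast
    ring
  rw [h3, Complex.norm_real, Real.norm_eq_abs] at h2
  exact h2

variable {κ : Type} [Fintype κ] [DecidableEq κ]

/-- A character of the classes is constant on the fine classes, or its products with the class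
characters and the symbols have mean value zero. -/
def DichJ (D : Dt ι κ) (Z : ℕ → Finset (Finset ι)) (cl : ι → G) : Prop :=
  ∀ ψ : AddChar G ℂ, (∀ γ : κ → ZMod 3, ∃ u : ℂ, ‖u‖ = 1 ∧ ∀ X, ∀ S ∈ SG D Z γ X,
    hS (fun q => ψ (cl q)) S = u) ∨
    (EngV D Z (hS fun q => ψ (cl q)) ∧ MeanV D Z (hS fun q => ψ (cl q)))

end Cls

theorem dichJ_dtB {ι : Type} [DecidableEq ι] [PS ι] {G : Type} [AddCommGroup G] [Finite G]
    {D : Dat3b ι} (hD : D.OKb) {C₂ : ℝ} (hC₂ : ∀ Y : ℕ, ((Sx ι Y).card : ℝ) ≤ C₂ * Y)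
    (B : Finset ι) {cl : ι → G} (hdi : Dich3 D cl) : DichJ (dtB D B) (SxT B) cl := by
  intro ψ
  rcases hdi ψ with ⟨c, c', h1⟩ | h1
  · refine Or.inl fun γ => ⟨e3 (c * γ (Sum.inl false) + c' * γ (Sum.inl true)), norm_e3 _,
      fun X S hS' => ?_⟩
    have h2 := (mem_SG.1 hS').2
    have h3 : ∑ q ∈ S, D.a q = γ (Sum.inl false) := h2 (Sum.inl false)
    have h4 : ∑ q ∈ S, D.b q = γ (Sum.inl true) := h2 (Sum.inl true)
    rw [← h3, ← h4, mul_sum, mul_sum, ← sum_add_distrib, e3_sum]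
    exact prod_congr rfl fun q _ => h1 q
  · have hn : ∀ q, ‖ψ (cl q)‖ = 1 := fun q => AddChar.norm_apply ψ _
    exact Or.inr ⟨engV_dtB hD hC₂ B hn h1, meanV_dtB B h1⟩

/-! ### The joint moments in the classes -/

variable {A : Type} [Fintype A] [DecidableEq A] {ι : Type} [DecidableEq ι]
  {κ : Type} [Fintype κ] [DecidableEq κ] {E : A → Type} [∀ a, Fintype (E a)]
  [∀ a, DecidableEq (E a)] {G : Type} [AddCommGroup G] [Fintype G]

theorem norm_hS_ch (ψ : AddChar G ℂ) (cl : ι → G) (S : Finset ι) :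
    ‖hS (fun q => ψ (cl q)) S‖ = 1 := by
  rw [hS_ch]
  exact AddChar.norm_apply ψ _

/-- The joint moments of the normalised sizes in the classes. -/
theorem mom_xPG {D : Dt ι κ} {Z : ℕ → Finset (Finset ι)} (hD : EngD D Z) (hM : MeanD D Z)
    {cl : ι → G} (hdi : DichJ D Z cl)
    {c : A → κ → ZMod 3} (hc : Function.Injective c) {P : ∀ a, κ → E a → ZMod 3}
    {R : ∀ a, Matrix (E a) (E a) (ZMod 3)} (hR : ∀ a e f, R a e f = R a f e)
    (hP : ∀ a, ∀ x : E a → ZMod 3, (∀ j, ∑ e, P a j e * x e = 0) → x = 0) (γ : κ → ZMod 3)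
    (g : G) (k : A → ℕ) :
    MV (fun X => Cl cl g (SG D Z γ X)) (fun S => ∏ a, (xP D c P R γ a S : ℝ) ^ k a)
      (∏ a, (Nk3 (k a) : ℝ)) := by
  classical
  refine MV_cl (B := SG D Z γ) (fun ψ ε hε => ?_) g
  set F : Finset ι → ℝ := fun S => ∏ a, (xP D c P R γ a S : ℝ) ^ k a with hF
  set v : ℝ := ∏ a, (Nk3 (k a) : ℝ) with hv
  rcases hdi ψ with h1 | ⟨h1, h2⟩
  · obtain ⟨u, hu, hw⟩ := h1 γ
    obtain ⟨X₀, h0⟩ := mom_xP hD hM hc hR hP γ k ε hε
    refine ⟨X₀, fun X hX => ?_⟩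
    have h3 := h0 X hX
    rw [sum_congr rfl fun S hS' => by rw [hw X S hS'], ← mul_sum, norm_mul, hu, one_mul]
    have h4 : ∑ S ∈ SG D Z γ X, ((F S : ℂ) - v) =
        ((∑ S ∈ SG D Z γ X, F S - v * (SG D Z γ X).card : ℝ) : ℂ) := by
      rw [sum_sub_distrib, sum_const, nsmul_eq_mul]
      push_cast
      ring
    rw [h4, Complex.norm_real, Real.norm_eq_abs]
    exact h3
  · obtain ⟨w, hw⟩ : ∃ w : Finset ι → ℂ, w = hS fun q => ψ (cl q) := ⟨_, rfl⟩
    have hw1 : ∀ S, ‖w S‖ = 1 := fun S => by rw [hw]; exact norm_hS_ch ψ cl S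
    rw [← hw] at h1 h2 ⊢
    set T : ℝ := ∏ a, (tP c P R γ a : ℝ) ^ k a with hT
    have ht1 : ∀ a, (1 : ℝ) ≤ tP c P R γ a := by
      intro a
      rw [tP]
      split_ifs <;> norm_num
    have hT1 : 1 ≤ T := by
      calc (1 : ℝ) = ∏ _a : A, (1 : ℝ) := prod_const_one.symm
        _ ≤ _ := prod_le_prod (fun _ _ => zero_le_one) fun a _ => one_le_pow₀ (ht1 a)
    have hmul : ∀ X : ℕ, ∀ S ∈ SG D Z γ X, S ≠ ∅ → (kP c P R D k S : ℝ) = T * F S := by
      intro X S hS' hne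
      rw [kP, Nat.cast_prod, hT, hF, ← prod_mul_distrib]
      refine prod_congr rfl fun a _ => ?_
      rw [xP_mul hS' hne a]
      push_cast
      rw [mul_pow]
    have hv0 : 0 ≤ v := prod_nonneg fun a _ => Nat.cast_nonneg _
    set M : ℝ := |T * F ∅ - (kP c P R D k ∅ : ℝ)| with hM'
    obtain ⟨X1, hX1⟩ := exists_nat_gt (3 * M / ε)
    obtain ⟨X2, hX2⟩ := SG_mom (k := k) c P R h1 h2 γ (ε / 3) (by positivity)
    have hT0 : 0 < T := by linarith
    have hTv : 0 < 3 * (T * v + 1) := by positivity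
    obtain ⟨X3, hX3⟩ := SG_one h2 γ (ε / (3 * (T * v + 1))) (by positivity)
    refine ⟨X1 + X2 + X3, fun X hX => ?_⟩
    have g1 : M ≤ ε / 3 * X := by
      have h4 : (X1 : ℝ) ≤ X := by exact_mod_cast (by omega : X1 ≤ X)
      have h5 := hX1.le.trans h4
      rw [div_le_iff₀ hε] at h5
      linarith
    have g2 := hX2 X (by omega)
    have g3 := hX3 X (by omega)
    have e1 : (T : ℂ) * ∑ S ∈ SG D Z γ X, w S * ((F S : ℂ) - v) =
        (∑ S ∈ SG D Z γ X, w S * ((T * F S - (kP c P R D k S : ℝ) : ℝ) : ℂ)) +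
        (∑ S ∈ SG D Z γ X, w S * (kP c P R D k S : ℂ) - (T * v : ℂ) * ∑ S ∈ SG D Z γ X, w S) := by
      rw [mul_sum, mul_sum, ← sum_sub_distrib, ← sum_add_distrib]
      refine sum_congr rfl fun S _ => ?_
      push_cast
      ring
    have e2 : ‖∑ S ∈ SG D Z γ X, w S * ((T * F S - (kP c P R D k S : ℝ) : ℝ) : ℂ)‖ ≤ M := by
      have h7 : ∀ S ∈ SG D Z γ X, S ≠ ∅ →
          w S * ((T * F S - (kP c P R D k S : ℝ) : ℝ) : ℂ) = 0 := by
        intro S hS' hne
        rw [hmul X S hS' hne, sub_self, Complex.ofReal_zero, mul_zero]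
      by_cases hm : (∅ : Finset ι) ∈ SG D Z γ X
      · rw [sum_eq_single_of_mem ∅ hm fun S hS' hne => h7 S hS' hne, norm_mul, hw1, one_mul,
          Complex.norm_real, Real.norm_eq_abs]
      · rw [sum_eq_zero fun S hS' => h7 S hS' fun h => hm (h ▸ hS'), norm_zero]
        exact abs_nonneg _
    have e3' : ‖(T : ℂ) * ∑ S ∈ SG D Z γ X, w S * ((F S : ℂ) - v)‖ ≤ ε * X := by
      rw [e1]
      have hX0 : (0 : ℝ) ≤ X := Nat.cast_nonneg X
      have e4 : ‖(T * v : ℂ) * ∑ S ∈ SG D Z γ X, w S‖ ≤ ε / 3 * X := by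
        have h8 : ‖(T * v : ℂ)‖ = T * v := by
          have h9 : (T * v : ℂ) = ((T * v : ℝ) : ℂ) := by push_cast; rfl
          rw [h9, Complex.norm_real, Real.norm_eq_abs, abs_of_nonneg (by positivity)]
        rw [norm_mul, h8]
        calc T * v * ‖∑ S ∈ SG D Z γ X, w S‖ ≤ (T * v + 1) * (ε / (3 * (T * v + 1)) * X) :=
              mul_le_mul (by linarith) g3 (norm_nonneg _) (by positivity)
          _ = ε / 3 * X := by field_simp
      have e5 := norm_sub_le (∑ S ∈ SG D Z γ X, w S * (kP c P R D k S : ℂ))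
        ((T * v : ℂ) * ∑ S ∈ SG D Z γ X, w S)
      refine (norm_add_le _ _).trans ?_
      linarith
    rw [norm_mul, Complex.norm_real, Real.norm_eq_abs, abs_of_pos hT0] at e3'
    exact (le_mul_of_one_le_left (norm_nonneg _) hT1).trans e3'

/-- **Part D: all the kernels are minimal with lower density at least `cinf3 ^ #A` in every class.** -/
theorem dens_PG [Nonempty A] {D : Dt ι κ} {Z : ℕ → Finset (Finset ι)} (hD : EngD D Z)
    (hM : MeanD D Z) {cl : ι → G} (hdi : DichJ D Z cl)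
    {c : A → κ → ZMod 3} (hc : Function.Injective c)
    {P : ∀ a, κ → E a → ZMod 3} {R : ∀ a, Matrix (E a) (E a) (ZMod 3)}
    (hR : ∀ a e f, R a e f = R a f e)
    (hP : ∀ a, ∀ x : E a → ZMod 3, (∀ j, ∑ e, P a j e * x e = 0) → x = 0) (γ : κ → ZMod 3)
    (g : G) {κ₀ : ℝ} (hκ : κ₀ < cinf3 ^ Fintype.card A) (ε : ℝ) (hε : 0 < ε) :
    ∃ X₀ : ℕ, ∀ X : ℕ, X₀ ≤ X →
      κ₀ * ((Cl cl g (SG D Z γ X)).card : ℝ) - ε * X ≤
        ((Cl cl g (SG D Z γ X)).filter fun S => S ≠ ∅ ∧ ∀ a, D.kB (c a) (P a) (R a) S =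
          tP c P R γ a).card := by
  classical
  obtain ⟨X0, h0⟩ := dens_prod (B := fun X => Cl cl g (SG D Z γ X))
    (x := fun a S => xP D c P R γ a S)
    (fun a S => xP_pow D c P R _ a S) (mom_xPG hD hM hdi hc hR hP γ g) hκ (ε / 2) (by positivity)
  obtain ⟨X1, hX1⟩ := exists_nat_gt (2 / ε)
  refine ⟨X0 + X1, fun X hX => ?_⟩
  have h1 := h0 X ((Nat.le_add_right _ _).trans hX)
  have h2 : (1 : ℝ) ≤ ε / 2 * X := by
    have h4 : (X1 : ℝ) ≤ X := by exact_mod_cast (Nat.le_add_left _ _).trans hX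
    have h5 := hX1.le.trans h4
    rw [div_le_iff₀ hε] at h5
    linarith
  have h4 : (Cl cl g (SG D Z γ X)).filter (fun S => ∀ a, xP D c P R γ a S = 1) ⊆
      insert ∅ ((Cl cl g (SG D Z γ X)).filter fun S => S ≠ ∅ ∧ ∀ a,
        D.kB (c a) (P a) (R a) S = tP c P R γ a) := by
    intro S hS'
    rw [mem_filter] at hS'
    rw [mem_insert, mem_filter]
    by_cases h : S = ∅
    · exact Or.inl h
    · refine Or.inr ⟨hS'.1, h, fun a => ?_⟩
      rw [xP_mul (mem_Cl.1 hS'.1).1 h a, hS'.2 a, mul_one]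
  have h5 := (card_le_card h4).trans (card_insert_le _ _)
  have h6 : (((Cl cl g (SG D Z γ X)).filter (fun S => ∀ a, xP D c P R γ a S = 1)).card : ℝ) ≤
      ((Cl cl g (SG D Z γ X)).filter fun S => S ≠ ∅ ∧ ∀ a, D.kB (c a) (P a) (R a) S =
          tP c P R γ a).card + 1 := by exact_mod_cast h5
  linarith

end

end Pool.Agent.Lib.MP_1a91b9_ntN.H
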