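import Pool.Agent.Lib.MP_1a91b9_ntN.DJ.Dens
import Pool.Agent.Lib.MP_1a91b9_ntS3.DG.ClsW

/-!
# MP_1a91b9_nt (multicubic base fields, classes modulo powers of three), part D: the joint moments
with a weight

A weight is the product of the values of a completely multiplicative function. The sums with a weight
which is not a cubic character are small.
-/

set_option autoImplicit false
set_option linter.unusedSectionVars false

namespace Pool.Agent.Lib.MP_1a91b9_ntN.H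

open Finset Pool.Agent.Lib.MP_1a91b9_ntH Pool.Agent.Lib.MP_1a91b9_ntK
  Pool.Agent.Lib.MP_1a91b9_ntK.Da
open Pool.Agent.Lib.MP_1a91b9_ntS3.DG (hS Mz3 Dich3 engine3b_w hS_ch)

noncomputable section

/-! ### The engine with a weight -/

section Defs

variable {ι κ : Type} [DecidableEq ι] [Fintype κ] [DecidableEq κ]

/-- The normalised sums with the weight `w` are small. -/
def EngV (D : Dt ι κ) (Z : ℕ → Finset (Finset ι)) (w : Finset ι → ℂ) : Prop :=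
  ∀ (L : Type) [Fintype L] [DecidableEq L] (Phi : L → L → ZMod 3) (m : ℕ) (c : L → κ → ZMod 3),
    OKL Phi m → ∀ ε : ℝ, 0 < ε → ∃ X₀ : ℕ, ∀ X : ℕ, X₀ ≤ X →
      ‖∑ S ∈ Z X, w S * (((m : ℂ)⁻¹) ^ S.card * ∑ f : S → L, e3 (D.eL Phi c S f))‖ ≤ ε * X

/-- The mean values of the weight times the class characters are zero. -/
def MeanV (D : Dt ι κ) (Z : ℕ → Finset (Finset ι)) (w : Finset ι → ℂ) : Prop :=
  ∀ ψ : κ → ZMod 3, ∀ ε : ℝ, 0 < ε → ∃ X₀ : ℕ, ∀ X : ℕ, X₀ ≤ X →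
    ‖∑ S ∈ Z X, w S * e3 (∑ q ∈ S, D.lin ψ q)‖ ≤ ε * X

end Defs

section Inst

variable {ι : Type} [DecidableEq ι] [PS ι]

theorem engV_dtB {D : Dat3b ι} (hD : D.OKb) {C₂ : ℝ}
    (hC₂ : ∀ Y : ℕ, ((Sx ι Y).card : ℝ) ≤ C₂ * Y) (B : Finset ι) {h : ι → ℂ}
    (hn : ∀ q, ‖h q‖ = 1) (hz : Mz3 D h) : EngV (dtB D B) (SxT B) (hS h) := by
  intro L _ _ Phi m c hP ε hε
  obtain ⟨X₀, h0⟩ := engine3b_w D hD hC₂ (lsB B Phi m c) (lsB_OK B hP c) hn hz ε hε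
  refine ⟨X₀, fun X hX => ?_⟩
  have h1 := h0 X hX
  simp only [lsB_eS] at h1
  exact h1

theorem meanV_dtB {D : Dat3b ι} (B : Finset ι) {h : ι → ℂ} (hz : Mz3 D h) :
    MeanV (dtB D B) (SxT B) (hS h) := by
  classical
  intro ψ ε hε
  obtain ⟨X₀, h0⟩ := hz B (xB B ψ) (ψ (Sum.inl false)) (ψ (Sum.inl true)) ε hε
  refine ⟨X₀, fun X hX => ?_⟩
  refine le_trans (le_of_eq ?_) (h0 X hX)
  rw [SxT]
  congr 1
  refine sum_congr rfl fun S _ => ?_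
  unfold hS
  rw [e3_sum, ← prod_mul_distrib]
  exact prod_congr rfl fun q _ => by rw [dtB_lin]

end Inst

/-! ### The moments with a weight -/

section Mom

variable {A : Type} [Fintype A] [DecidableEq A] {k : A → ℕ} {ι : Type} [DecidableEq ι]
  {κ : Type} [Fintype κ] [DecidableEq κ] {E : A → Type} [∀ a, Fintype (E a)]
  [∀ a, DecidableEq (E a)]

variable (c : A → κ → ZMod 3) (P : ∀ a, κ → E a → ZMod 3) (R : ∀ a, Matrix (E a) (E a) (ZMod 3))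

/-- The expansion for one set. -/
theorem MoP_one (D : Dt ι κ) (ψ : κ → ZMod 3) (S : Finset ι) :
    e3 (∑ q ∈ S, D.lin ψ q) * (kP c P R D k S : ℂ) *
      ∏ a, ((3 : ℂ) ^ k a) ^ Fintype.card (E a) =
      ∑ m : (∀ a, E a → Lab3 (k a)), (∏ a, e3 (RF (R a) (m a))) *
        ((((∏ a, 3 ^ k a : ℕ) : ℂ)⁻¹) ^ S.card *
          ∑ f : S → LabP k, e3 (D.eL PhiP (fun l j => cP c P m l j + ψ j) S f)) := by
  have h := MoP_eq (k := k) c P R D (fun _ => {S}) ψ 0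
  rw [MoP] at h
  simp only [sum_singleton] at h
  exact h

/-- The sums with a weight are small. -/
theorem MoP_van {D : Dt ι κ} {Z : ℕ → Finset (Finset ι)} {w : Finset ι → ℂ} (hD : EngV D Z w)
    (hM : MeanV D Z w) (ψ : κ → ZMod 3) (ε : ℝ) (hε : 0 < ε) :
    ∃ X₀ : ℕ, ∀ X : ℕ, X₀ ≤ X →
      ‖∑ S ∈ Z X, w S * (e3 (∑ q ∈ S, D.lin ψ q) * (kP c P R D k S : ℂ))‖ ≤ ε * X := by
  classical
  by_cases hk : ∃ a, 1 ≤ k a
  · have hN : (0 : ℝ) < Fintype.card (∀ a, E a → Lab3 (k a)) := by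
      exact_mod_cast Fintype.card_pos
    choose X0 h0 using fun m : (∀ a, E a → Lab3 (k a)) =>
      hD (LabP k) PhiP (∏ a, 3 ^ k a) (fun l j => cP c P m l j + ψ j) (OKL_P hk)
        (ε / Fintype.card (∀ a, E a → Lab3 (k a))) (by positivity)
    refine ⟨∑ m, X0 m, fun X hX => ?_⟩
    have hXt : ∀ m, X0 m ≤ X := fun m =>
      (single_le_sum (fun _ _ => Nat.zero_le _) (mem_univ m)).trans hX
    have h3 : (1 : ℝ) ≤ ‖∏ a, ((3 : ℂ) ^ k a) ^ Fintype.card (E a)‖ := by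
      rw [norm_prod]
      calc (1 : ℝ) = ∏ _a : A, (1 : ℝ) := prod_const_one.symm
        _ ≤ _ := prod_le_prod (fun _ _ => zero_le_one) fun a _ => by
          rw [norm_pow, norm_pow, Complex.norm_ofNat]
          exact one_le_pow₀ (one_le_pow₀ (by norm_num))
    have e1 : (∑ S ∈ Z X, w S * (e3 (∑ q ∈ S, D.lin ψ q) * (kP c P R D k S : ℂ))) *
        ∏ a, ((3 : ℂ) ^ k a) ^ Fintype.card (E a) =
        ∑ m : (∀ a, E a → Lab3 (k a)), (∏ a, e3 (RF (R a) (m a))) * ∑ S ∈ Z X, w S *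
          ((((∏ a, 3 ^ k a : ℕ) : ℂ)⁻¹) ^ S.card *
            ∑ f : S → LabP k, e3 (D.eL PhiP (fun l j => cP c P m l j + ψ j) S f)) := by
      rw [sum_mul]
      have h4 : ∀ S ∈ Z X, w S * (e3 (∑ q ∈ S, D.lin ψ q) * (kP c P R D k S : ℂ)) *
          ∏ a, ((3 : ℂ) ^ k a) ^ Fintype.card (E a) =
          ∑ m : (∀ a, E a → Lab3 (k a)), (∏ a, e3 (RF (R a) (m a))) * (w S *
            ((((∏ a, 3 ^ k a : ℕ) : ℂ)⁻¹) ^ S.card *
            ∑ f : S → LabP k, e3 (D.eL PhiP (fun l j => cP c P m l j + ψ j) S f))) := by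
        intro S _
        rw [mul_assoc, MoP_one, mul_sum]
        exact sum_congr rfl fun m _ => by ring
      rw [sum_congr rfl h4, sum_comm]
      exact sum_congr rfl fun m _ => (mul_sum _ _ _).symm
    calc ‖∑ S ∈ Z X, w S * (e3 (∑ q ∈ S, D.lin ψ q) * (kP c P R D k S : ℂ))‖
        ≤ ‖∑ S ∈ Z X, w S * (e3 (∑ q ∈ S, D.lin ψ q) * (kP c P R D k S : ℂ))‖ *
          ‖∏ a, ((3 : ℂ) ^ k a) ^ Fintype.card (E a)‖ := le_mul_of_one_le_right (norm_nonneg _) h3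
      _ = ‖∑ m : (∀ a, E a → Lab3 (k a)), (∏ a, e3 (RF (R a) (m a))) * ∑ S ∈ Z X, w S *
          ((((∏ a, 3 ^ k a : ℕ) : ℂ)⁻¹) ^ S.card *
            ∑ f : S → LabP k, e3 (D.eL PhiP (fun l j => cP c P m l j + ψ j) S f))‖ := by
        rw [← norm_mul, e1]
      _ ≤ ∑ _m : (∀ a, E a → Lab3 (k a)), ε / Fintype.card (∀ a, E a → Lab3 (k a)) * X := by
        refine (norm_sum_le _ _).trans (sum_le_sum fun m _ => ?_)
        rw [norm_mul, norm_prod, prod_congr rfl fun a _ => norm_e3 _, prod_const_one, one_mul]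
        exact h0 m X (hXt m)
      _ = ε * X := by
        rw [sum_const, card_univ, nsmul_eq_mul]
        field_simp
  · push Not at hk
    have hk0 : ∀ a, k a = 0 := fun a => by
      have := hk a
      omega
    have h1 : ∀ S, kP c P R D k S = 1 := fun S =>
      prod_eq_one fun a _ => by rw [hk0 a, pow_zero]
    obtain ⟨X₀, h0⟩ := hM ψ ε hε
    refine ⟨X₀, fun X hX => ?_⟩
    simp only [h1, Nat.cast_one, mul_one]
    exact h0 X hX

/-- The sums over a fine class. -/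
theorem SG_van {D : Dt ι κ} {Z : ℕ → Finset (Finset ι)} {w F : Finset ι → ℂ}
    (h : ∀ (ψ : κ → ZMod 3) (ε : ℝ), 0 < ε → ∃ X₀ : ℕ, ∀ X : ℕ, X₀ ≤ X →
      ‖∑ S ∈ Z X, w S * (e3 (∑ q ∈ S, D.lin ψ q) * F S)‖ ≤ ε * X) (γ : κ → ZMod 3) (ε : ℝ)
    (hε : 0 < ε) : ∃ X₀ : ℕ, ∀ X : ℕ, X₀ ≤ X → ‖∑ S ∈ SG D Z γ X, w S * F S‖ ≤ ε * X := by
  have hN : (0 : ℝ) < Fintype.card (κ → ZMod 3) := by exact_mod_cast Fintype.card_pos
  choose X0 h0 using fun ψ : κ → ZMod 3 => h ψ (ε / Fintype.card (κ → ZMod 3)) (by positivity)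
  refine ⟨∑ ψ, X0 ψ, fun X hX => ?_⟩
  have hXt : ∀ ψ, X0 ψ ≤ X := fun ψ =>
    (single_le_sum (fun _ _ => Nat.zero_le _) (mem_univ ψ)).trans hX
  have h1 : (1 : ℝ) ≤ ‖(3 ^ Fintype.card κ : ℂ)‖ := by
    rw [norm_pow, Complex.norm_ofNat]
    exact one_le_pow₀ (by norm_num)
  calc ‖∑ S ∈ SG D Z γ X, w S * F S‖
      ≤ ‖(3 ^ Fintype.card κ : ℂ)‖ * ‖∑ S ∈ SG D Z γ X, w S * F S‖ :=
        le_mul_of_one_le_left (norm_nonneg _) h1
    _ = ‖∑ ψ : κ → ZMod 3, e3 (∑ j, -ψ j * γ j) *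
        ∑ S ∈ Z X, e3 (∑ q ∈ S, D.lin ψ q) * (w S * F S)‖ := by
      rw [← norm_mul, sum_SG]
    _ ≤ ∑ _ψ : κ → ZMod 3, ε / Fintype.card (κ → ZMod 3) * X := by
      refine (norm_sum_le _ _).trans (sum_le_sum fun ψ _ => ?_)
      rw [norm_mul, norm_e3, one_mul]
      refine le_trans (le_of_eq ?_) (h0 ψ X (hXt ψ))
      congr 1
      exact sum_congr rfl fun S _ => by ring
    _ = ε * X := by
      rw [sum_const, card_univ, nsmul_eq_mul]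
      field_simp

theorem SG_mom {D : Dt ι κ} {Z : ℕ → Finset (Finset ι)} {w : Finset ι → ℂ} (hD : EngV D Z w)
    (hM : MeanV D Z w) (γ : κ → ZMod 3) (ε : ℝ) (hε : 0 < ε) :
    ∃ X₀ : ℕ, ∀ X : ℕ, X₀ ≤ X →
      ‖∑ S ∈ SG D Z γ X, w S * (kP c P R D k S : ℂ)‖ ≤ ε * X :=
  SG_van (fun ψ ε hε => MoP_van c P R hD hM ψ ε hε) γ ε hε

theorem SG_one {D : Dt ι κ} {Z : ℕ → Finset (Finset ι)} {w : Finset ι → ℂ}
    (hM : MeanV D Z w) (γ : κ → ZMod 3) (ε : ℝ) (hε : 0 < ε) :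
    ∃ X₀ : ℕ, ∀ X : ℕ, X₀ ≤ X → ‖∑ S ∈ SG D Z γ X, w S‖ ≤ ε * X := by
  obtain ⟨X₀, h0⟩ := SG_van (F := fun _ => 1) (fun ψ ε hε => by
    obtain ⟨X₀, h0⟩ := hM ψ ε hε
    exact ⟨X₀, fun X hX => by simpa only [mul_one] using h0 X hX⟩) γ ε hε
  exact ⟨X₀, fun X hX => by simpa only [mul_one] using h0 X hX⟩

end Mom

end

end Pool.Agent.Lib.MP_1a91b9_ntN.H
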