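import Pool.Agent.Lib.MP_1a91b9_ntN.H.Den
import Pool.Agent.Lib.MP_1a91b9_ntN.H.GdJ
import Pool.Agent.Lib.MP_1a91b9_ntN.Q.Main
import Pool.Agent.Lib.MP_1a91b9_ntN.F.Fin3

/-!
# MP_1a91b9_nt (multicubic base fields, classes modulo powers of three): the rank part of the conjecture
of Birch and Swinnerton-Dyer for `y² + D y = x³` over all the finite extensions of `ℚ(√-3)` generated by
cube roots, in every class modulo a divisor of a power of three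
-/

set_option autoImplicit false

namespace Pool.Agent.Lib.MP_1a91b9_ntN.H

open NumberField IsDedekindDomain Finset WeierstrassCurve Pool.Agent.Lib.MP_1a91b9_ntT
  Pool.Agent.Lib.MP_1a91b9_ntK Pool.Agent.Lib.MP_1a91b9_ntK2 Pool.Agent.Lib.MP_1a91b9_ntK2.D9
  Pool.Agent.Lib.MP_1a91b9_nt
open Pool.Agent.Lib.MP_1a91b9_ntH (wO s3 Nz Sx prime_s3)
open Pool.Agent.Lib.MP_1a91b9_ntS3.G (Q9)

noncomputable section

theorem pow3_dvd_Q9 (n : ℕ) : (3 : 𝓞 K) ^ n ∣ Q9 n := ⟨9, by unfold Q9; ring⟩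

/-- **The rank part over an extension generated by cube roots.** -/
theorem main_ofG (hJ : ∀ n, DSJG n) (H : ChainHyp3) (F : Type) [Field F] [NumberField F] [Algebra K F]
    (hF : IntermediateField.adjoin K {x : F | ∃ c : K, x ^ 3 = algebraMap K F c} = ⊤)
    {n : ℕ} {m u : 𝓞 K} (hm : m ∣ 3 ^ n) (hu : ¬ (s3 ^ 3 ∣ m ∧ s3 ^ 3 ∣ u)) (ε : ℝ) (hε : 0 < ε) :
    ∀ᶠ X : ℝ in Filter.atTop,
      (∏' i : ℕ, (1 + 1 / (3 : ℝ) ^ (i + 1))⁻¹) ^ Module.finrank K F - ε ≤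
      (Nat.card {d : 𝓞 K // (∀ p, Prime p → ¬ p ^ 3 ∣ d) ∧ m ∣ d - u ∧ |Algebra.norm ℤ d| ≤ X ∧
        ∀ W : WeierstrassCurve F, W = ⟨0, 0, algebraMap K F (d : K), 0, 0⟩ →
          (∃ g : ℂ → ℂ, Differentiable ℂ g ∧ (∀ s : ℂ, 3 / 2 < s.re → g s = W.LSeries s) ∧
            g 1 ≠ 0) ∧ Finite W.toAffine.Point} : ℝ) /
        (Nat.card {d : 𝓞 K // (∀ p, Prime p → ¬ p ^ 3 ∣ d) ∧ m ∣ d - u ∧
          |Algebra.norm ℤ d| ≤ X} : ℝ) := by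
  obtain ⟨A, hA⟩ := MCT.exists_of hF
  have hok := hA.ok
  rw [← hok.len]
  refine den_allG (hJ n) ?_ hok.ne hok.pw (hm.trans (pow3_dvd_Q9 n)) hu _ (fun d hd h => ?_) ε hε
  · rintro rfl
    have h1 := hok.len
    rw [List.length_nil] at h1
    exact absurd h1.symm (Module.finrank_pos (R := K) (M := F)).ne'
  · have hd0 : d ≠ 0 := by
      rintro rfl
      exact (CF_iff _).1 hd s3 prime_s3 (dvd_zero _)
    rintro W rfl
    exact chain3 H hA d hd0 fun b hb => Wt_good (h b hb)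

/-- **The rank part over an extension generated by cube roots, in every class.** -/
theorem main_mcG (F : Type) [Field F] [NumberField F] [Algebra K F]
    (hF : IntermediateField.adjoin K {x : F | ∃ c : K, x ^ 3 = algebraMap K F c} = ⊤)
    {n : ℕ} {m u : 𝓞 K} (hm : m ∣ 3 ^ n) (hu : ¬ (s3 ^ 3 ∣ m ∧ s3 ^ 3 ∣ u)) (ε : ℝ) (hε : 0 < ε) :
    ∀ᶠ X : ℝ in Filter.atTop,
      (∏' i : ℕ, (1 + 1 / (3 : ℝ) ^ (i + 1))⁻¹) ^ Module.finrank K F - ε ≤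
      (Nat.card {d : 𝓞 K // (∀ p, Prime p → ¬ p ^ 3 ∣ d) ∧ m ∣ d - u ∧ |Algebra.norm ℤ d| ≤ X ∧
        ∀ W : WeierstrassCurve F, W = ⟨0, 0, algebraMap K F (d : K), 0, 0⟩ →
          (∃ g : ℂ → ℂ, Differentiable ℂ g ∧ (∀ s : ℂ, 3 / 2 < s.re → g s = W.LSeries s) ∧
            g 1 ≠ 0) ∧ Finite W.toAffine.Point} : ℝ) /
        (Nat.card {d : 𝓞 K // (∀ p, Prime p → ¬ p ^ 3 ∣ d) ∧ m ∣ d - u ∧
          |Algebra.norm ℤ d| ≤ X} : ℝ) :=
  main_ofG dsjG chainHyp3 F hF hm hu ε hε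

end

end Pool.Agent.Lib.MP_1a91b9_ntN.H
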